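import Pool.Agent.H47.MED.Stmts

/-!
# MED, module RTP: coprime pairs with the same power of the ratio
-/

set_option autoImplicit false

namespace Pool.MED

open Finset Pool.Agent.H98.ABCR Pool.SHA

private theorem rtp_eq {a b c d : ℕ} (h1 : a.Coprime b) (h2 : c.Coprime d) (h : a * d = c * b) :
    a = c ∧ b = d := by
  refine ⟨Nat.dvd_antisymm ?_ ?_, Nat.dvd_antisymm ?_ ?_⟩
  · exact h1.dvd_of_dvd_mul_right (Dvd.intro _ h)
  · exact h2.dvd_of_dvd_mul_right (Dvd.intro _ h.symm)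
  · exact h1.symm.dvd_of_dvd_mul_left (Dvd.intro_left _ h.symm)
  · exact h2.symm.dvd_of_dvd_mul_left (Dvd.intro_left _ h)

/-- RTP -/
theorem rtp_thm (h : S_RTS) : S_RTP := by
  classical
  intro M e R Z hM he hR hZ hp
  rcases Z.eq_empty_or_nonempty with rfl | ⟨w, hw⟩
  · rw [Finset.card_empty]
    exact Nat.zero_le _
  have hu : ∀ n : ℕ, n.Coprime M → (n : ZMod M) * (n : ZMod M)⁻¹ = 1 :=
    fun n hn => ZMod.coe_mul_inv_eq_one n hn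
  obtain ⟨-, -, -, hw1, hw2⟩ := hZ w hw
  obtain ⟨y, hy⟩ : ∃ y : ℕ × ℕ → ZMod M, ∀ z, y z =
      (z.1 : ZMod M) * (z.2 : ZMod M)⁻¹ * ((w.2 : ZMod M) * (w.1 : ZMod M)⁻¹) :=
    ⟨_, fun _ => rfl⟩
  have hone : ∀ z ∈ Z, y z ^ e = 1 := by
    intro z hz
    obtain ⟨-, -, -, hz1, hz2⟩ := hZ z hz
    have h1 := hp z hz w hw
    rw [← ZMod.natCast_eq_natCast_iff] at h1
    push_cast at h1
    have h2 : y z * ((w.1 : ZMod M) * z.2) = (z.1 : ZMod M) * w.2 := by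
      rw [hy]
      calc (z.1 : ZMod M) * (z.2 : ZMod M)⁻¹ * ((w.2 : ZMod M) * (w.1 : ZMod M)⁻¹) *
            ((w.1 : ZMod M) * z.2)
          = (z.1 : ZMod M) * w.2 * ((z.2 : ZMod M) * (z.2 : ZMod M)⁻¹) *
            ((w.1 : ZMod M) * (w.1 : ZMod M)⁻¹) := by ring
        _ = (z.1 : ZMod M) * w.2 := by rw [hu _ hz2, hu _ hw1, mul_one, mul_one]
    have h3 : y z ^ e * ((w.1 : ZMod M) * z.2) ^ e = ((w.1 : ZMod M) * z.2) ^ e := by
      rw [← mul_pow, h2, h1]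
    have h4 : ((w.1 : ZMod M) * z.2) * ((w.1 : ZMod M)⁻¹ * (z.2 : ZMod M)⁻¹) = 1 := by
      calc ((w.1 : ZMod M) * z.2) * ((w.1 : ZMod M)⁻¹ * (z.2 : ZMod M)⁻¹)
          = ((w.1 : ZMod M) * (w.1 : ZMod M)⁻¹) * ((z.2 : ZMod M) * (z.2 : ZMod M)⁻¹) := by ring
        _ = 1 := by rw [hu _ hz2, hu _ hw1, mul_one]
    calc y z ^ e = y z ^ e * (((w.1 : ZMod M) * z.2) *
            ((w.1 : ZMod M)⁻¹ * (z.2 : ZMod M)⁻¹)) ^ e := by rw [h4, one_pow, mul_one]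
      _ = (y z ^ e * ((w.1 : ZMod M) * z.2) ^ e) *
            ((w.1 : ZMod M)⁻¹ * (z.2 : ZMod M)⁻¹) ^ e := by rw [mul_pow, mul_assoc]
      _ = (((w.1 : ZMod M) * z.2) * ((w.1 : ZMod M)⁻¹ * (z.2 : ZMod M)⁻¹)) ^ e := by
          rw [h3, ← mul_pow]
      _ = 1 := by rw [h4, one_pow]
  have hinj : Set.InjOn y (Z : Set (ℕ × ℕ)) := by
    intro z hz z' hz' hyy
    obtain ⟨hz0, hzR, hzR2, hz1, hz2⟩ := hZ z (Finset.mem_coe.1 hz)
    obtain ⟨hz0', hzR', hzR2', hz1', hz2'⟩ := hZ z' (Finset.mem_coe.1 hz')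
    have h1 : (z.1 : ZMod M) * (z.2 : ZMod M)⁻¹ = (z'.1 : ZMod M) * (z'.2 : ZMod M)⁻¹ := by
      have h2 : ∀ u : ℕ × ℕ, (u.1 : ZMod M) * (u.2 : ZMod M)⁻¹ =
          y u * ((w.1 : ZMod M) * (w.2 : ZMod M)⁻¹) := by
        intro u
        rw [hy]
        calc (u.1 : ZMod M) * (u.2 : ZMod M)⁻¹
            = (u.1 : ZMod M) * (u.2 : ZMod M)⁻¹ * ((w.2 : ZMod M) * (w.2 : ZMod M)⁻¹) *
              ((w.1 : ZMod M) * (w.1 : ZMod M)⁻¹) := by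
                rw [hu _ hw1, hu _ hw2, mul_one, mul_one]
          _ = (u.1 : ZMod M) * (u.2 : ZMod M)⁻¹ * ((w.2 : ZMod M) * (w.1 : ZMod M)⁻¹) *
              ((w.1 : ZMod M) * (w.2 : ZMod M)⁻¹) := by ring
      rw [h2 z, h2 z', hyy]
    have h3 : (z.1 : ZMod M) * z'.2 = (z'.1 : ZMod M) * z.2 := by
      calc (z.1 : ZMod M) * z'.2
          = ((z.1 : ZMod M) * (z.2 : ZMod M)⁻¹) * ((z.2 : ZMod M) * z'.2) := by
            calc (z.1 : ZMod M) * z'.2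
                = (z.1 : ZMod M) * z'.2 * ((z.2 : ZMod M) * (z.2 : ZMod M)⁻¹) := by
                  rw [hu _ hz2, mul_one]
              _ = ((z.1 : ZMod M) * (z.2 : ZMod M)⁻¹) * ((z.2 : ZMod M) * z'.2) := by ring
        _ = ((z'.1 : ZMod M) * (z'.2 : ZMod M)⁻¹) * ((z.2 : ZMod M) * z'.2) := by rw [h1]
        _ = (z'.1 : ZMod M) * z.2 * ((z'.2 : ZMod M) * (z'.2 : ZMod M)⁻¹) := by ring
        _ = (z'.1 : ZMod M) * z.2 := by rw [hu _ hz2', mul_one]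
    have h4 : z.1 * z'.2 ≡ z'.1 * z.2 [MOD M] := by
      rw [← ZMod.natCast_eq_natCast_iff]
      push_cast
      exact h3
    have h5 : z.1 * z'.2 < M := lt_of_lt_of_le
      (Nat.mul_lt_mul'' hzR hzR2') (by rw [← pow_two]; exact hR)
    have h6 : z'.1 * z.2 < M := lt_of_lt_of_le
      (Nat.mul_lt_mul'' hzR' hzR2) (by rw [← pow_two]; exact hR)
    have h7 : z.1 * z'.2 = z'.1 * z.2 := Nat.ModEq.eq_of_lt_of_lt h4 h5 h6
    obtain ⟨h8, h9⟩ := rtp_eq hz0 hz0' h7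
    exact Prod.ext h8 h9
  rw [← Finset.card_image_of_injOn hinj]
  refine h M e (Z.image y) hM he ?_
  intro t ht
  rw [Finset.mem_image] at ht
  obtain ⟨z, hz, rfl⟩ := ht
  exact hone z hz

end Pool.MED
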